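import Mathlib
import Pool.Agent.MP_567833_co.Main

set_option autoImplicit false

open SimpleGraph Pool.Agent.MP_567833_co

namespace Pool.Agent.Results.MP_567833_co.NotSubadditive

/-- For the star `G = K_{1,18}` and the cycle `H = C_4`, both antimagic,
`tau (G ∪ H) > tau G + tau H`. -/
theorem result :
    IsAntimagic (completeBipartiteGraph (Fin 1) (Fin 18)) ∧ IsAntimagic (cycleGraph 4) ∧
      ∃ a b c : ℕ, IsTau (completeBipartiteGraph (Fin 1) (Fin 18)) a ∧ IsTau (cycleGraph 4) b ∧
        IsTau (completeBipartiteGraph (Fin 1) (Fin 18) ⊕g cycleGraph 4) c ∧ a + b < c := by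
  obtain ⟨a, -, ha, hA⟩ := exists_isTau St 0 38
    (fun t ht => by rw [Nat.le_zero.1 ht]; exact star_zero) star_not
  obtain ⟨b, -, hb, hB⟩ := exists_isTau (cycleGraph 4) 0 11
    (fun t ht => by rw [Nat.le_zero.1 ht]; exact cyc_zero) cyc_not
  obtain ⟨c, hc, -, hC⟩ := exists_isTau (St ⊕g cycleGraph 4) 48 49 union_yes union_not
  exact ⟨star_yes, cyc_yes, a, b, c, hA, hB, hC, by omega⟩

end Pool.Agent.Results.MP_567833_co.NotSubadditive
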